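import Pool.Agent.Helper24.HW.N0
import Pool.Agent.Helper14.HW.N1b
import Pool.Agent.Helper1.HW.A1b
import Pool.Agent.Helper97.HW.A2

/-!
# MP_074879_pr, block N3: trees without big vertices of the last colours
-/

open Finset

namespace HW

open Forest

namespace N3

/-- the path with `n` vertices -/
def path : ℕ → Forest
  | 0 => nil
  | n + 1 => cons (path n) nil

theorem len_zero (F : Forest) (h : F.len = 0) : F = nil := by
  cases F with
  | nil => rfl
  | cons c s => simp [Forest.len] at h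

theorem eq_path (F : Forest) (hl : F.len ≤ 1)
    (hw : F.wt (fun k => if k < 2 then (1 / 2 : ℝ) else 0) ≠ 0) : F = path F.vert := by
  induction F with
  | nil => rfl
  | cons c s ihc ihs =>
    have hs : s = nil := by
      apply len_zero
      simp only [Forest.len] at hl
      omega
    subst hs
    have hc : c.len ≤ 1 := by
      by_contra hcon
      apply hw
      have : ¬ (c.len < 2) := by omega
      simp [Forest.wt, this]
    have hwc : c.wt (fun k => if k < 2 then (1 / 2 : ℝ) else 0) ≠ 0 := by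
      intro h0
      apply hw
      simp only [Forest.wt, h0]
      ring
    have := ihc hc hwc
    simp only [Forest.vert, Nat.add_zero]
    show cons c nil = path (c.vert + 1)
    rw [path, ← this]

theorem wt_le (F : Forest) :
    F.wt (fun k => if k < 2 then (1 / 2 : ℝ) else 0) ≤ (1 / 2) ^ F.vert ∧
    0 ≤ F.wt (fun k => if k < 2 then (1 / 2 : ℝ) else 0) := by
  induction F with
  | nil => simp [Forest.wt, Forest.vert]
  | cons c s ihc ihs =>
    simp only [Forest.wt, Forest.vert]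
    have h1 : (if c.len < 2 then (1 / 2 : ℝ) else 0) ≤ 1 / 2 := by split_ifs <;> norm_num
    have h0 : 0 ≤ (if c.len < 2 then (1 / 2 : ℝ) else 0) := by split_ifs <;> norm_num
    refine ⟨?_, mul_nonneg (mul_nonneg h0 ihc.2) ihs.2⟩
    calc (if c.len < 2 then (1 / 2 : ℝ) else 0) *
          c.wt (fun k => if k < 2 then (1 / 2 : ℝ) else 0) *
          s.wt (fun k => if k < 2 then (1 / 2 : ℝ) else 0)
        ≤ (1 / 2) * (1 / 2) ^ c.vert * (1 / 2) ^ s.vert := by
          apply mul_le_mul (mul_le_mul h1 ihc.1 ihc.2 (by norm_num)) ihs.1 ihs.2 (by positivity)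
      _ = (1 / 2) ^ (c.vert + s.vert + 1) := by ring

theorem TS_path (n : ℕ) :
    TS n (fun k => if k < 2 then (1 / 2 : ℝ) else 0) (fun _ => True) ≤ (1 / 2) ^ n := by
  unfold TS
  simp only [if_true]
  by_cases hp : path n ∈ trees n
  · rw [Finset.sum_eq_single (path n)]
    · have h1 := (wt_le (path n)).1
      have h2 := ((mem_trees n (path n)).1 hp).2
      rwa [h2] at h1
    · intro T hT hne
      by_contra hw
      have h1 := (mem_trees n T).1 hT
      apply hne
      rw [eq_path T (by omega) hw, h1.2]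
    · intro h
      exact absurd hp h
  · rw [Finset.sum_eq_zero]
    · positivity
    · intro T hT
      by_contra hw
      have h1 := (mem_trees n T).1 hT
      apply hp
      have h2 := eq_path T (by omega) hw
      rw [h1.2] at h2
      rwa [h2] at hT

theorem two_pow_ge (e : ℕ) (he : 3 ≤ e) : 2 * e + 2 ≤ 2 ^ e := by
  induction e, he using Nat.le_induction with
  | base => norm_num
  | succ k hk ih => rw [pow_succ]; omega

theorem base_num (n L e : ℕ) (ε : ℝ) (hL : 1000 ≤ L) (hLe : L ^ 5 ≤ e) (h0 : 0 < ε)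
    (h1 : ε ≤ 1) (hn : 5 * 2 ^ e ≤ n) :
    (1 / 2 : ℝ) ^ n ≤ Real.exp (-(L : ℝ)) * qc L ε (ε * 2 ^ e) := by
  have hLe' : L ≤ e := by
    calc L = L ^ 1 := by ring
      _ ≤ L ^ 5 := Nat.pow_le_pow_right (by omega) (by norm_num)
      _ ≤ e := hLe
  have h2e := two_pow_ge e (by omega)
  have hnn : 5 * L + 6 + 2 * e ≤ n := by omega
  have hexp : Real.exp (L : ℝ) ≤ 2 ^ (2 * L) := by
    have h : Real.exp 1 ≤ 2 ^ 2 := by
      have := Real.exp_one_lt_d9
      linarith
    calc Real.exp (L : ℝ) = (Real.exp 1) ^ L := by rw [← Real.exp_nat_mul]; simp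
      _ ≤ (2 ^ 2) ^ L := pow_le_pow_left₀ (Real.exp_pos _).le h _
      _ = 2 ^ (2 * L) := by rw [pow_mul]
  have hLp : (L : ℝ) ≤ 2 ^ L := by exact_mod_cast Nat.lt_two_pow_self.le
  have hL0 : (0 : ℝ) < L := by
    have : 0 < L := by omega
    exact_mod_cast this
  have hq : qc L ε (ε * 2 ^ e) = 1 / (64 * L * (2 ^ L) ^ 2 * ε * (2 ^ e) ^ 2) := by
    unfold qc
    field_simp
    ring
  rw [hq, Real.exp_neg, ← one_div, one_div_mul_one_div, one_div_pow]
  apply one_div_le_one_div_of_le (by positivity)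
  calc Real.exp (L : ℝ) * (64 * L * (2 ^ L) ^ 2 * ε * (2 ^ e) ^ 2)
      ≤ 2 ^ (2 * L) * (64 * 2 ^ L * (2 ^ L) ^ 2 * 1 * (2 ^ e) ^ 2) := by
        gcongr
    _ = 2 ^ (5 * L + 6 + 2 * e) := by ring
    _ ≤ 2 ^ n := pow_le_pow_right₀ (by norm_num) hnn

theorem step_num (L : ℕ) (x θ : ℝ) (hL : 1000 ≤ L) (hx : 9 / 10 * (L : ℝ) ≤ x) (hθ : θ ≤ 1) :
    2 * Real.exp θ * (4 * 4 ^ L * x) * Real.exp (-(4 * x)) ≤ Real.exp (-(L : ℝ)) := by
  have hL0 : (1000 : ℝ) ≤ L := by exact_mod_cast hL
  have h4 : (4 : ℝ) ^ L ≤ Real.exp (7 / 5 * L) := by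
    have h : (4 : ℝ) ≤ Real.exp (7 / 5) := by
      have h1 : Real.log 4 ≤ 7 / 5 := by
        have : (4 : ℝ) = 2 ^ 2 := by norm_num
        rw [this, Real.log_pow]
        have := Real.log_two_lt_d9
        push_cast
        linarith
      calc (4 : ℝ) = Real.exp (Real.log 4) := (Real.exp_log (by norm_num)).symm
        _ ≤ _ := Real.exp_le_exp.2 h1
    calc (4 : ℝ) ^ L ≤ (Real.exp (7 / 5)) ^ L := pow_le_pow_left₀ (by norm_num) h _
      _ = Real.exp (7 / 5 * L) := by rw [← Real.exp_nat_mul]; ring_nf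
  have hx2 : x ≤ 2 * Real.exp (x / 2) := by
    have := Real.add_one_le_exp (x / 2)
    linarith
  have h16 : (16 : ℝ) ≤ Real.exp 3 := by
    have h := Real.exp_one_gt_d9
    have : Real.exp 3 = Real.exp 1 ^ 3 := by rw [← Real.exp_nat_mul]; norm_num
    rw [this]
    calc (16 : ℝ) ≤ 2.7 ^ 3 := by norm_num
      _ ≤ _ := pow_le_pow_left₀ (by norm_num) (by linarith) _
  have hx0 : 0 ≤ x := by linarith
  calc 2 * Real.exp θ * (4 * 4 ^ L * x) * Real.exp (-(4 * x))
      ≤ 2 * Real.exp 1 * (4 * Real.exp (7 / 5 * L) * (2 * Real.exp (x / 2))) *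
          Real.exp (-(4 * x)) := by
        gcongr
    _ = 16 * (Real.exp 1 * Real.exp (7 / 5 * L) * Real.exp (x / 2) * Real.exp (-(4 * x))) := by
        ring
    _ ≤ Real.exp 3 *
          (Real.exp 1 * Real.exp (7 / 5 * L) * Real.exp (x / 2) * Real.exp (-(4 * x))) := by
        gcongr
    _ = Real.exp (3 + (1 + 7 / 5 * L + x / 2 + -(4 * x))) := by
        rw [Real.exp_add, Real.exp_add, Real.exp_add, Real.exp_add]
    _ ≤ Real.exp (-(L : ℝ)) := by
        apply Real.exp_le_exp.2
        linarith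

end N3

namespace Sys
variable {f : ℝ → ℝ} (S : Sys f)

/-- N3 -/
theorem tdown (j n : ℕ) (hn : 5 * 2 ^ (S.e j) ≤ n) :
    TS n (S.W j) (fun _ => True) ≤ Real.exp (-(S.L j : ℝ)) * S.q j := by
  induction j generalizing n with
  | zero =>
    have hW : S.W 0 = fun k => if k < 2 then (1 / 2 : ℝ) else 0 := by
      funext k
      exact S.W_zero k
    rw [hW]
    refine (N3.TS_path n).trans ?_
    have hi := S.inv 0
    obtain ⟨h1, h2, _⟩ := Inv.eps_pow _ _ _ _ _ hi
    exact N3.base_num n (S.L 0) (S.e 0) (S.ε 0) hi.L_ge hi.L_le h1 h2 hn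
  | succ j ih =>
    have hi := S.inv j
    have hi' := S.inv (j + 1)
    obtain ⟨hg0, hgq, hgK, _, _, _, _⟩ := Inv.col_facts _ _ _ _ _ hi
    have hKe : S.K (j + 1) = nextK (S.W j) (S.K j) (S.e j) (S.L j) := S.K_step j
    have hKK : S.K j ≤ S.K (j + 1) := by
      rw [hKe]; exact le_max_left _ _
    have hK1 : 1 ≤ S.K (j + 1) := by
      rw [hKe]
      exact le_trans (by omega) (le_max_right _ _)
    set w : ℕ → ℝ := fun k => S.W j k + S.g j k with hwdef
    have hw0 : ∀ k, 0 ≤ w k := fun k => add_nonneg (hi.law.nonneg k) (hg0 k)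
    have hws : ∀ k, S.K (j + 1) ≤ k → w k = 0 := by
      intro k hk
      have h1 : S.W j k = 0 := hi.law.supp k (hKK.trans hk)
      have h2 : S.g j k = 0 := hgK k (by rw [← hKe]; exact hk)
      simp [hwdef, h1, h2]
    -- small tilt
    have hθ0 := hi'.θ_pos
    obtain ⟨he0, he1, _⟩ := Inv.eps_pow _ _ _ _ _ hi'
    have hts := Inv.theta_small _ _ _ _ _ hi'
    have hebig : (1000 : ℝ) ≤ S.e (j + 1) := by
      have h1 := hi'.L_ge
      have h2 := hi'.L_le
      have h3 : S.L (j + 1) ≤ S.L (j + 1) ^ 5 := by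
        calc S.L (j + 1) = S.L (j + 1) ^ 1 := by ring
          _ ≤ _ := Nat.pow_le_pow_right (by omega) (by norm_num)
      have h4 : 1000 ≤ S.e (j + 1) := by omega
      exact_mod_cast h4
    have he3 : (1 : ℝ) ≤ (S.e (j + 1) : ℝ) ^ 3 := by
      apply one_le_pow₀; linarith
    have hθε : 1000 * S.θ (j + 1) ≤ epsL (S.W (j + 1)) (S.K (j + 1)) := by
      have : S.θ (j + 1) ≤ (S.e (j + 1) : ℝ) ^ 3 * S.θ (j + 1) := le_mul_of_one_le_left hθ0.le he3
      linarith
    have hθ1 : S.θ (j + 1) ≤ 1 / 1000 := by linarith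
    -- total masses
    have hmb := Inv.ms_bounds _ _ _ _ _ hi (S.θ (j + 1)) hθ0.le hθ1
    have hmb0 := Inv.ms_bounds _ _ _ _ _ hi 0 le_rfl (by norm_num)
    rw [← hKe] at hmb hmb0
    change 1 ≤ ms w (S.K (j + 1)) (S.θ (j + 1)) ∧ _ at hmb
    change 1 ≤ ms w (S.K (j + 1)) 0 ∧ _ at hmb0
    have hm1 : 1 ≤ ms w (S.K (j + 1)) (S.θ (j + 1)) := hmb.1
    have hM1 : 1 ≤ ms w (S.K (j + 1)) 0 := hmb0.1
    have hM0 : ms w (S.K (j + 1)) 0 = ∑ k ∈ range (S.K (j + 1)), w k := by
      unfold ms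
      apply Finset.sum_congr rfl
      intro k _
      simp
    set m := ms w (S.K (j + 1)) (S.θ (j + 1)) with hmdef
    set M := ms w (S.K (j + 1)) 0 with hMdef
    have hmpos : 0 < m := by linarith
    -- the law
    have hWeq : S.W (j + 1) = fun k : ℕ =>
        m⁻¹ * Real.exp (-S.θ (j + 1) * ((k : ℝ) - 1)) * w k := by
      rw [S.W_step j]
      funext k
      unfold nextW tilt
      rw [← hKe]
      change w k * Real.exp (-S.θ (j + 1) * ((k : ℝ) - 1)) / m = _
      field_simp
    -- drift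
    have heps : epsL (S.W (j + 1)) (S.K (j + 1)) = Fs w (S.K (j + 1)) (S.θ (j + 1)) / m := by
      rw [hWeq]
      unfold epsL Fs
      rw [Finset.sum_div]
      apply Finset.sum_congr rfl
      intro k _
      field_simp
    have hFm : Fs w (S.K (j + 1)) (S.θ (j + 1)) = m * epsL (S.W (j + 1)) (S.K (j + 1)) := by
      rw [heps]; field_simp
    have hpos : 0 ≤ epsL w (S.K (j + 1)) := by
      have h1 := Inv.Fs_add_ge _ _ _ _ _ hi 0 le_rfl
      rw [← hKe, Fs_zero] at h1
      change _ ≤ Fs w (S.K (j + 1)) 0 at h1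
      rw [Fs_zero] at h1
      obtain ⟨h2, _, _⟩ := Inv.eps_pow _ _ _ _ _ hi
      have h3 : (1000 : ℝ) ≤ S.L j := by exact_mod_cast hi.L_ge
      have h4 : 1 / (S.L j : ℝ) ≤ 1 := by
        rw [div_le_one (by linarith)]; linarith
      have h5 : 0 ≤ (1 - 1 / (S.L j : ℝ)) * epsL (S.W j) (S.K j) :=
        mul_nonneg (by linarith) h2.le
      linarith
    have hw00 : w 0 ≤ 1 := by
      have h1 : S.g j 0 = 0 := by
        show phCol _ _ _ _ _ 0 = 0
        unfold phCol col
        rw [if_neg]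
        rintro ⟨h2, -⟩
        have h3 : 0 ≤ epsL (S.W j) (S.K j) * 2 ^ S.e j := by
          have := (Inv.eps_pow _ _ _ _ _ hi).1
          positivity
        simp only [Nat.cast_zero] at h2
        linarith
      have h2 : S.W j 0 ≤ 1 := by
        have hK0 : 0 < S.K j := by
          by_contra hcon
          have h3 : S.K j = 0 := by omega
          have h4 := hi.law.one
          rw [h3] at h4
          simp at h4
        rw [← hi.law.one]
        exact Finset.single_le_sum (f := S.W j) (fun k _ => hi.law.nonneg k) (mem_range.2 hK0)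
      simp only [hwdef, h1]
      linarith
    have hgrow : M + 4 / 5 * (S.θ (j + 1) * Fs w (S.K (j + 1)) (S.θ (j + 1))) ≤ m := by
      apply ms_growth w (S.K (j + 1)) hw0 hws hpos hK1 (Inv.reg_add _ _ _ _ _ hi) _ hθ0 hθ1
      rw [hFm]
      have h1 : w 0 * S.θ (j + 1) ≤ 1 * S.θ (j + 1) := by gcongr
      have h2 : 1 * epsL (S.W (j + 1)) (S.K (j + 1)) ≤ m * epsL (S.W (j + 1)) (S.K (j + 1)) := by
        gcongr
      linarith
    have hratio : M / m ≤ Real.exp (-(4 / 5 * (S.θ (j + 1) * S.ε (j + 1)))) := by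
      have h1 : M / m ≤ 1 - 4 / 5 * (S.θ (j + 1) * S.ε (j + 1)) := by
        rw [div_le_iff₀ hmpos]
        rw [hFm] at hgrow
        have h2 : S.ε (j + 1) = epsL (S.W (j + 1)) (S.K (j + 1)) := rfl
        rw [h2]
        nlinarith
      have h2 := Real.add_one_le_exp (-(4 / 5 * (S.θ (j + 1) * S.ε (j + 1))))
      linarith
    -- main estimate
    have hn' : 5 * 2 ^ (S.e j) ≤ n := by
      have h1 : 2 ^ (S.e j) ≤ 2 ^ (S.e (j + 1)) := by
        rw [S.e_step j]
        exact Nat.pow_le_pow_right (by norm_num) (by omega)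
      omega
    have hn1 : 1 ≤ n := by
      have : 1 ≤ 2 ^ (S.e j) := Nat.one_le_two_pow
      omega
    have hq0 : 0 ≤ S.q j := by
      refine (hg0 0).trans (hgq 0)
    have hTS1 : TS n (S.W j) (fun _ => True) ≤ S.q j := by
      refine (ih n hn').trans ?_
      have : Real.exp (-(S.L j : ℝ)) ≤ 1 := by
        apply Real.exp_le_one_iff.2
        have : (0 : ℝ) ≤ S.L j := Nat.cast_nonneg _
        linarith
      calc Real.exp (-(S.L j : ℝ)) * S.q j ≤ 1 * S.q j := by gcongr
        _ = S.q j := one_mul _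
    have hsumK : ∑ k ∈ range (max n (S.K (j + 1))), w k = M := by
      rw [hM0]
      symm
      apply Finset.sum_subset
      · intro k hk
        rw [mem_range] at hk ⊢
        exact lt_of_lt_of_le hk (le_max_right _ _)
      · intro k _ hk
        apply hws
        rw [mem_range] at hk
        omega
    have hTM : TM n (S.g j) w (fun _ => True) ≤ S.q j * M ^ (n - 1) := by
      have := TM_le_sup n (max n (S.K (j + 1))) hn1 (le_max_left _ _) (S.g j) w hg0 hw0
        (S.q j) hgq (fun _ => True)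
      rwa [hsumK] at this
    have hMn : M ^ (n - 1) ≤ M ^ n := pow_le_pow_right₀ hM1 (by omega)
    have hMn1 : 1 ≤ M ^ n := one_le_pow₀ hM1
    have hTS2 : TS n w (fun _ => True) ≤ 2 * S.q j * M ^ n := by
      have h1 := TS_add_le n (S.W j) (S.g j) hi.law.nonneg hg0 (fun _ => True)
      change TS n w (fun _ => True) ≤ _ + TM n (S.g j) w (fun _ => True) at h1
      have h2 : S.q j * M ^ (n - 1) ≤ S.q j * M ^ n := by gcongr
      have h3 : S.q j * 1 ≤ S.q j * M ^ n := by gcongr
      linarith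
    rw [hWeq, TS_scale]
    have hτ : 9 / 10 * (S.L (j + 1) : ℝ) ≤ S.τ (j + 1) := hi'.tau
    have hτ0 : 0 ≤ S.τ (j + 1) := by
      have : (0 : ℝ) ≤ S.L (j + 1) := Nat.cast_nonneg _
      linarith
    have hq1 : 0 ≤ S.q (j + 1) := by
      obtain ⟨hg0', hgq', _⟩ := Inv.col_facts _ _ _ _ _ hi'
      exact (hg0' 0).trans (hgq' 0)
    have hpow : (M / m) ^ n ≤ Real.exp (-(4 * S.τ (j + 1))) := by
      calc (M / m) ^ n ≤ (Real.exp (-(4 / 5 * (S.θ (j + 1) * S.ε (j + 1))))) ^ n := by
            apply pow_le_pow_left₀ _ hratio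
            exact div_nonneg (by linarith) hmpos.le
        _ = Real.exp (n * -(4 / 5 * (S.θ (j + 1) * S.ε (j + 1)))) := by rw [← Real.exp_nat_mul]
        _ ≤ Real.exp (-(4 * S.τ (j + 1))) := by
            apply Real.exp_le_exp.2
            have h1 : (5 : ℝ) * 2 ^ (S.e (j + 1)) ≤ n := by exact_mod_cast hn
            have h2 : 0 ≤ S.θ (j + 1) * S.ε (j + 1) := mul_nonneg hθ0.le he0.le
            have h3 : S.τ (j + 1) = S.θ (j + 1) * S.ε (j + 1) * 2 ^ (S.e (j + 1)) := by
              unfold τ b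
              ring
            rw [h3]
            nlinarith
    have hqr := S.q_ratio j
    calc m⁻¹ ^ n * Real.exp (S.θ (j + 1)) * TS n w (fun _ => True)
        ≤ m⁻¹ ^ n * Real.exp (S.θ (j + 1)) * (2 * S.q j * M ^ n) := by
          gcongr
      _ = 2 * Real.exp (S.θ (j + 1)) * S.q j * (M / m) ^ n := by
          rw [div_pow, inv_pow]
          ring
      _ ≤ 2 * Real.exp (S.θ (j + 1)) *
            (4 * 4 ^ (S.L (j + 1)) * S.τ (j + 1) * S.q (j + 1)) *
            Real.exp (-(4 * S.τ (j + 1))) := by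
          gcongr
      _ = (2 * Real.exp (S.θ (j + 1)) * (4 * 4 ^ (S.L (j + 1)) * S.τ (j + 1)) *
            Real.exp (-(4 * S.τ (j + 1)))) * S.q (j + 1) := by ring
      _ ≤ Real.exp (-(S.L (j + 1) : ℝ)) * S.q (j + 1) := by
          gcongr
          exact N3.step_num (S.L (j + 1)) (S.τ (j + 1)) (S.θ (j + 1)) hi'.L_ge hτ (by linarith)

end Sys

end HW
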